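import Mathlib

/-!
The negative-type inequality for the set distance `d(A,B) = √(|A \ B|² + |B \ A|²)` is false:
on five points there are two families of four distinct subsets violating it.
-/

set_option autoImplicit false

namespace Pool.Agent.Results.MP_314109_co.Counterexample

open Finset

/-- The distance `d(A,B) = √(|A \ B|² + |B \ A|²)` of two finite sets. -/
noncomputable def d {X : Type} [DecidableEq X] (A B : Finset X) : ℝ :=
  Real.sqrt (((A \ B).card : ℝ) ^ 2 + ((B \ A).card : ℝ) ^ 2)

/-- The inequality of the problem for the families `A 0, …, A (m-1)` and `B 0, …, B (m-1)`. -/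
def Ineq {X : Type} [DecidableEq X] {m : ℕ} (A B : Fin m → Finset X) : Prop :=
  (∑ i, ∑ j ∈ Finset.univ.filter (fun j => i < j), d (A i) (A j)) +
    (∑ i, ∑ j ∈ Finset.univ.filter (fun j => i < j), d (B i) (B j)) ≤
      ∑ i, ∑ j, d (A i) (B j)

/-- first family on five points -/
def A5 : Fin 4 → Finset (Fin 5) := ![{0, 3}, {0, 2, 3}, {1, 4}, {1, 2, 4}]

/-- second family on five points -/
def B5 : Fin 4 → Finset (Fin 5) := ![{0, 1}, {0, 1, 2}, {3, 4}, {2, 3, 4}]

lemma d_map {X Y : Type} [DecidableEq X] [DecidableEq Y] (f : X ↪ Y) (A B : Finset X) :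
    d (A.map f) (B.map f) = d A B := by
  unfold d
  rw [← Finset.map_sdiff, ← Finset.map_sdiff, Finset.card_map, Finset.card_map]

lemma d_eq {X : Type} [DecidableEq X] {A B : Finset X} {a b : ℕ} (h1 : (A \ B).card = a)
    (h2 : (B \ A).card = b) : d A B = Real.sqrt ((a : ℝ) ^ 2 + (b : ℝ) ^ 2) := by
  unfold d; rw [h1, h2]

lemma not_ineq5 : ¬ Ineq A5 B5 := by
  unfold Ineq
  have s01 : Finset.univ.filter (fun j : Fin 4 => 0 < j) = {1, 2, 3} := by decide
  have s12 : Finset.univ.filter (fun j : Fin 4 => 1 < j) = {2, 3} := by decide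
  have s23 : Finset.univ.filter (fun j : Fin 4 => 2 < j) = {3} := by decide
  have s34 : Finset.univ.filter (fun j : Fin 4 => 3 < j) = ∅ := by decide
  rw [Fin.sum_univ_four, Fin.sum_univ_four, Fin.sum_univ_four, s01, s12, s23, s34]
  simp only [Fin.sum_univ_four]
  rw [Finset.sum_insert (by decide), Finset.sum_insert (by decide), Finset.sum_singleton,
    Finset.sum_insert (by decide), Finset.sum_singleton, Finset.sum_singleton, Finset.sum_empty,
    Finset.sum_insert (by decide), Finset.sum_insert (by decide), Finset.sum_singleton,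
    Finset.sum_insert (by decide), Finset.sum_singleton, Finset.sum_singleton, Finset.sum_empty]
  rw [d_eq (A := A5 0) (B := A5 1) (a := 0) (b := 1) (by decide) (by decide),
    d_eq (A := A5 0) (B := A5 2) (a := 2) (b := 2) (by decide) (by decide),
    d_eq (A := A5 0) (B := A5 3) (a := 2) (b := 3) (by decide) (by decide),
    d_eq (A := A5 1) (B := A5 2) (a := 3) (b := 2) (by decide) (by decide),
    d_eq (A := A5 1) (B := A5 3) (a := 2) (b := 2) (by decide) (by decide),
    d_eq (A := A5 2) (B := A5 3) (a := 0) (b := 1) (by decide) (by decide),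
    d_eq (A := B5 0) (B := B5 1) (a := 0) (b := 1) (by decide) (by decide),
    d_eq (A := B5 0) (B := B5 2) (a := 2) (b := 2) (by decide) (by decide),
    d_eq (A := B5 0) (B := B5 3) (a := 2) (b := 3) (by decide) (by decide),
    d_eq (A := B5 1) (B := B5 2) (a := 3) (b := 2) (by decide) (by decide),
    d_eq (A := B5 1) (B := B5 3) (a := 2) (b := 2) (by decide) (by decide),
    d_eq (A := B5 2) (B := B5 3) (a := 0) (b := 1) (by decide) (by decide)]
  rw [d_eq (A := A5 0) (B := B5 0) (a := 1) (b := 1) (by decide) (by decide),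
    d_eq (A := A5 0) (B := B5 1) (a := 1) (b := 2) (by decide) (by decide),
    d_eq (A := A5 0) (B := B5 2) (a := 1) (b := 1) (by decide) (by decide),
    d_eq (A := A5 0) (B := B5 3) (a := 1) (b := 2) (by decide) (by decide),
    d_eq (A := A5 1) (B := B5 0) (a := 2) (b := 1) (by decide) (by decide),
    d_eq (A := A5 1) (B := B5 1) (a := 1) (b := 1) (by decide) (by decide),
    d_eq (A := A5 1) (B := B5 2) (a := 2) (b := 1) (by decide) (by decide),
    d_eq (A := A5 1) (B := B5 3) (a := 1) (b := 1) (by decide) (by decide),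
    d_eq (A := A5 2) (B := B5 0) (a := 1) (b := 1) (by decide) (by decide),
    d_eq (A := A5 2) (B := B5 1) (a := 1) (b := 2) (by decide) (by decide),
    d_eq (A := A5 2) (B := B5 2) (a := 1) (b := 1) (by decide) (by decide),
    d_eq (A := A5 2) (B := B5 3) (a := 1) (b := 2) (by decide) (by decide),
    d_eq (A := A5 3) (B := B5 0) (a := 2) (b := 1) (by decide) (by decide),
    d_eq (A := A5 3) (B := B5 1) (a := 1) (b := 1) (by decide) (by decide),
    d_eq (A := A5 3) (B := B5 2) (a := 2) (b := 1) (by decide) (by decide),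
    d_eq (A := A5 3) (B := B5 3) (a := 1) (b := 1) (by decide) (by decide)]
  push_cast
  norm_num
  have h8 : Real.sqrt 8 = 2 * Real.sqrt 2 := by
    rw [show (8 : ℝ) = 2 ^ 2 * 2 by norm_num, Real.sqrt_mul (by norm_num), Real.sqrt_sq (by norm_num)]
  have h13 : (3 : ℝ) < Real.sqrt 13 := by
    rw [Real.lt_sqrt (by norm_num)]; norm_num
  have h5 : 2 * Real.sqrt 5 < 1 + Real.sqrt 13 := by
    have a1 := Real.sq_sqrt (show (0 : ℝ) ≤ 5 by norm_num)
    have a2 := Real.sq_sqrt (show (0 : ℝ) ≤ 13 by norm_num)
    have a3 := Real.sqrt_nonneg 5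
    nlinarith
  rw [h8]
  linarith

/-- **The inequality is false.** For every finite set `X` with at least five elements there are two
families of four distinct subsets of `X` for which it fails. In particular the statement of the
problem (for all finite `X`, all `m ≥ 1` and all pairs of families of `m` distinct subsets) is
false. -/
theorem result :
    (¬ ∀ (X : Type) [Fintype X] [DecidableEq X] (m : ℕ), 1 ≤ m → ∀ A B : Fin m → Finset X,
      Function.Injective A → Function.Injective B → Ineq A B) ∧
    ∀ (X : Type) [Fintype X] [DecidableEq X], 5 ≤ Fintype.card X →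
      ∃ A B : Fin 4 → Finset X, Function.Injective A ∧ Function.Injective B ∧ ¬ Ineq A B := by
  have main : ∀ (X : Type) [Fintype X] [DecidableEq X], 5 ≤ Fintype.card X →
      ∃ A B : Fin 4 → Finset X, Function.Injective A ∧ Function.Injective B ∧ ¬ Ineq A B := by
    intro X _ _ hX
    obtain ⟨f⟩ : Nonempty (Fin 5 ↪ X) := by
      apply Function.Embedding.nonempty_of_card_le
      simpa using hX
    refine ⟨fun i => (A5 i).map f, fun i => (B5 i).map f, ?_, ?_, ?_⟩
    · have h : Function.Injective A5 := by decide
      intro i j hij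
      exact h (Finset.map_injective f hij)
    · have h : Function.Injective B5 := by decide
      intro i j hij
      exact h (Finset.map_injective f hij)
    · have h := not_ineq5
      unfold Ineq at h ⊢
      simpa only [d_map] using h
  refine ⟨fun h => ?_, main⟩
  obtain ⟨A, B, hA, hB, hI⟩ := main (Fin 5) (by simp)
  exact hI (h (Fin 5) 4 (by norm_num) A B hA hB)

end Pool.Agent.Results.MP_314109_co.Counterexample
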